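import Pool.Agent.Helper7_ND.All2

/-!
# Nuclear dimension of extensions: `dim E ≤ max (dim I, dim L) + dim (D / L)` for tame ideals `L`

Let `0 → I → E → D → 0` be a short exact sequence of C*-algebras (no separability, no units), let
`N ≥ max (dim_nuc(I), dim_nuc(D))`, and call a nonzero C*-algebra `A` `N`-tame if it has a nonzero
abelian element (a positive element `a` with `a A a` commutative) or a nonzero closed ideal of
nuclear dimension zero or of decomposition rank at most `N`.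

1. If `L` is a closed ideal of `D` all of whose nonzero quotients are `max (dim I, dim L)`-tame,
   then `dim E ≤ max (dim I, dim L) + dim (D / L)`.
2. `dim E ≤ dim I + dim D` (the case `L = 0`).
3. `dim E ≤ max (dim I, dim D)` if all nonzero quotients of `D` are tame (`L = D`), for instance if
   `D` is of type I, and also if `I` or `D` has nuclear dimension zero.
4. If `dim E > N`, then `E` has a closed ideal `K` with `I ⊆ K ≠ E` and `dim K ≤ N` which is
   essential, which is maximal (all strictly larger closed ideals have nuclear dimension `> N`), and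
   for which `E / K` is not `N`-tame.
-/

set_option autoImplicit false

open scoped Matrix.Norms.L2Operator ENNReal Matrix

noncomputable section

namespace Pool.Agent.Results.MP_30b5b4_an.SumAndMaximum

open Pool.Agent.W659.EC Pool.Agent.Helper7_ND

/-- the bound by the sum -/
theorem sum_bound {I E D : Type} [NonUnitalCStarAlgebra I] [NonUnitalCStarAlgebra E]
    [NonUnitalCStarAlgebra D] (ι : I →⋆ₙₐ[ℂ] E) (π : E →⋆ₙₐ[ℂ] D) (h : IsExt ι π) :
    nucDim E ≤ nucDim I + nucDim D := by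
  rcases eq_or_ne (nucDim I) ⊤ with hI | hI
  · rw [hI, top_add]; exact le_top
  rcases eq_or_ne (nucDim D) ⊤ with hD | hD
  · rw [hD, add_top]; exact le_top
  obtain ⟨a, ha⟩ := ENat.ne_top_iff_exists.1 hI
  obtain ⟨b, hb⟩ := ENat.ne_top_iff_exists.1 hD
  have h1 := all_MAIN I E D ι π h (Fin a) (Fin b) (J_ND.t_ND.1 I a ha.symm.le)
    (J_ND.t_ND.1 D b hb.symm.le)
  have h2 := J_ND.t_ND.2 E (Fin b ⊕ Fin a) h1
  rw [Fintype.card_sum, Fintype.card_fin, Fintype.card_fin] at h2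
  rw [← ha, ← hb]
  refine h2.trans ?_
  rw [Nat.cast_add, add_comm]

/-- maps which kill the ideal factor through the quotient -/
theorem exists_factor {I E D A : Type} [NonUnitalCStarAlgebra I] [NonUnitalCStarAlgebra E]
    [NonUnitalCStarAlgebra D] [NonUnitalCStarAlgebra A] (ι : I →⋆ₙₐ[ℂ] E) (π : E →⋆ₙₐ[ℂ] D)
    (h : IsExt ι π) (θ : E →⋆ₙₐ[ℂ] A) (hθ : ∀ i, θ (ι i) = 0) :
    ∃ θ' : D →⋆ₙₐ[ℂ] A, ∀ e, θ' (π e) = θ e := by
  choose s hs using h.surj
  have key : ∀ e f : E, π e = π f → θ e = θ f := by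
    intro e f hef
    obtain ⟨i, hi⟩ := (h.exact (e - f)).1 (by rw [map_sub, hef, sub_self])
    have : θ (e - f) = 0 := by rw [← hi, hθ]
    rwa [map_sub, sub_eq_zero] at this
  refine ⟨{ toFun := fun d => θ (s d), map_smul' := ?_, map_zero' := ?_, map_add' := ?_,
            map_mul' := ?_, map_star' := ?_ }, fun e => key _ _ (hs _)⟩
  · intro c x
    show θ (s (c • x)) = c • θ (s x)
    rw [← map_smul]
    exact key _ _ (by rw [map_smul, hs, hs])
  · show θ (s 0) = 0
    rw [← map_zero θ]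
    exact key _ _ (by rw [map_zero, hs])
  · intro x y
    show θ (s (x + y)) = θ (s x) + θ (s y)
    rw [← map_add]
    exact key _ _ (by rw [map_add, hs, hs, hs])
  · intro x y
    show θ (s (x * y)) = θ (s x) * θ (s y)
    rw [← map_mul]
    exact key _ _ (by rw [map_mul, hs, hs, hs])
  · intro x
    show θ (s (star x)) = star (θ (s x))
    rw [← map_star]
    exact key _ _ (by rw [map_star, hs, hs])

/-- the bound by the maximum, for quotients all of whose nonzero quotients are tame -/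
theorem max_bound {I E D : Type} [NonUnitalCStarAlgebra I] [NonUnitalCStarAlgebra E]
    [NonUnitalCStarAlgebra D] (ι : I →⋆ₙₐ[ℂ] E) (π : E →⋆ₙₐ[ℂ] D) (h : IsExt ι π)
    (ht : ∀ (A : Type) [NonUnitalCStarAlgebra A] (θ : D →⋆ₙₐ[ℂ] A), Function.Surjective θ →
      Nontrivial A → TameN (max (nucDim I) (nucDim D)) A) :
    nucDim E ≤ max (nucDim I) (nucDim D) := by
  refine all_MAIN4 I E D ι π h _ (le_max_left _ _) (le_max_right _ _) ?_
  intro A _ θ hθ hA hι _
  obtain ⟨θ', hθ'⟩ := exists_factor ι π h θ hι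
  refine ht A θ' (fun a => ?_) hA
  obtain ⟨e, rfl⟩ := hθ a
  exact ⟨π e, hθ' e⟩

/-- the maximal ideal of a counterexample -/
theorem maximal_ideal {I E D : Type} [NonUnitalCStarAlgebra I] [NonUnitalCStarAlgebra E]
    [NonUnitalCStarAlgebra D] (ι : I →⋆ₙₐ[ℂ] E) (π : E →⋆ₙₐ[ℂ] D) (hext : IsExt ι π) (M : ℕ∞)
    (hI : nucDim I ≤ M) (hD : nucDim D ≤ M) (hE : M < nucDim E) :
    ∃ (K : Type) (_ : NonUnitalCStarAlgebra K) (κ : K →⋆ₙₐ[ℂ] E), IsIdeal κ ∧
      Set.range ι ⊆ Set.range κ ∧ Set.range κ ≠ Set.univ ∧ nucDim K ≤ M ∧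
      (∀ e : E, (∀ k, e * κ k = 0) → e = 0) ∧
      (∀ (L : Type) [NonUnitalCStarAlgebra L] (lam : L →⋆ₙₐ[ℂ] E), IsIdeal lam →
        Set.range κ ⊂ Set.range lam → M < nucDim L) ∧
      ∀ (A : Type) [NonUnitalCStarAlgebra A] (θ : E →⋆ₙₐ[ℂ] A), IsExt κ θ → ¬ TameN M A := by
  have htop : M ≠ ⊤ := ne_top_of_lt hE
  obtain ⟨N, rfl⟩ := ENat.ne_top_iff_exists.1 htop
  have sI := J_ND.t_ND.1 I N hI
  have sD := J_ND.t_ND.1 D N hD
  have hid := J_MAIN3.isIdeal_of_isExt hext
  have hfin : ∀ (X : Type) [NonUnitalCStarAlgebra X],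
      SysAll X (Option (Fin N)) → nucDim X ≤ (N : ℕ∞) := by
    intro X _ sX
    have := J_ND.t_ND.2 X (Fin N) sX
    rwa [Fintype.card_fin] at this
  -- the maximal ideal
  obtain ⟨m, hm0, hm⟩ := zorn_subset_nonempty
    {S : Set E | ∃ (K : Type) (_ : NonUnitalCStarAlgebra K) (κ : K →⋆ₙₐ[ℂ] E), IsIdeal κ ∧
      Set.range κ = S ∧ SysAll K (Option (Fin N))}
    (by
      intro c hc hch hne
      obtain ⟨K, iK, κ, h1, h2, h3⟩ := J_DS.t_CHN J_LOC.t_LOC E (Option (Fin N)) c hch hne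
        (fun S hS => hc hS)
      exact ⟨closure (⋃₀ c), ⟨K, iK, κ, h1, h2, h3⟩, fun S hS =>
        (Set.subset_sUnion_of_mem hS).trans subset_closure⟩)
    (Set.range ι) ⟨I, _, ι, hid, rfl, sI⟩
  obtain ⟨K, iK, κ, hκ, hrκ, sK⟩ := hm.prop
  have hιK : Set.range ι ⊆ Set.range κ := by rw [hrκ]; exact hm0
  have hmax : ∀ (L : Type) [NonUnitalCStarAlgebra L] (lam : L →⋆ₙₐ[ℂ] E), IsIdeal lam →
      SysAll L (Option (Fin N)) → ¬ Set.range κ ⊂ Set.range lam := by
    intro L _ lam hlam sL hlt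
    have hle : Set.range lam ≤ m := hm.le_of_ge ⟨L, _, lam, hlam, rfl, sL⟩ (by
      rw [← hrκ]; exact hlt.subset)
    rw [← hrκ] at hle
    exact hlt.not_subset hle
  refine ⟨K, iK, κ, hκ, hιK, ?_, hfin K sK, ?_, ?_, ?_⟩
  · intro huniv
    have hsur : Function.Surjective κ := Set.range_eq_univ.1 huniv
    exact absurd (hfin E (J_MAIN3.sysAll_of_bij all_HER κ ⟨hκ.inj, hsur⟩ _ sK)) (not_le.2 hE)
  · -- the annihilator
    obtain ⟨P, iP, p, hp, hp1, hp2⟩ := J_HG.t_PERP K E κ hκ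
    have hpκ : ∀ x k, p x * κ k = 0 := fun x => (hp1 (p x)).1 ⟨x, rfl⟩
    have sP : SysAll P (Option (Fin N)) := by
      refine all_HER P D (π.comp p) ⟨?_, ?_⟩ _ sD
      · rw [injective_iff_map_eq_zero]
        intro x hx
        obtain ⟨i, hi⟩ := (hext.exact (p x)).1 hx
        obtain ⟨k, hk⟩ : ι (star i) ∈ Set.range κ := hιK ⟨star i, rfl⟩
        have h1 : ι i * star (ι i) = 0 := by
          rw [← map_star, hi, ← hk]
          exact hpκ x k
        have h2 : ι i = 0 := CStarRing.mul_star_self_eq_zero_iff _ |>.1 h1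
        have h3 : p x = 0 := by rw [← hi, h2]
        exact hp.inj (by rw [h3, map_zero])
      · intro h h' a
        obtain ⟨e, rfl⟩ := hext.surj a
        obtain ⟨h1, hh1⟩ := hp.right e h
        obtain ⟨h2, hh2⟩ := hp.right (p h') h1
        refine ⟨h2, ?_⟩
        show π (p h2) = π (p h) * π e * π (p h')
        rw [hh2, hh1, map_mul, map_mul]
    obtain ⟨K₀, iK₀, κ₀, hκ₀, sK₀, hr₀⟩ := J_DS.t_DS J_SUM.t_SUM K P E κ p hκ hp
      (fun x y => hp2 y x) (Option (Fin N)) sK sP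
    intro e he
    obtain ⟨x, hx⟩ := (hp1 e).2 he
    have hsub : Set.range κ ⊆ Set.range κ₀ := by
      rintro _ ⟨k, rfl⟩
      exact (hr₀ (κ k)).2 ⟨k, 0, by rw [map_zero, add_zero]⟩
    have hmem : e ∈ Set.range κ₀ := (hr₀ e).2 ⟨0, x, by rw [map_zero, zero_add, hx]⟩
    have hnot := hmax K₀ κ₀ hκ₀ sK₀
    have hback : Set.range κ₀ ⊆ Set.range κ := by
      by_contra hc
      exact hnot ⟨hsub, hc⟩
    obtain ⟨k, hk⟩ : star e ∈ Set.range κ := by
      obtain ⟨k, hk⟩ := hback hmem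
      exact ⟨star k, by rw [map_star, hk]⟩
    have : e * star e = 0 := by rw [← hk]; exact he k
    exact CStarRing.mul_star_self_eq_zero_iff _ |>.1 this
  · intro L _ lam hlam hlt
    by_contra hc
    exact hmax L lam hlam (J_ND.t_ND.1 L N (not_lt.1 hc)) hlt
  · intro A _ θ hθ ht
    have hθι : ∀ i, θ (ι i) = 0 := fun i => (hθ.exact _).2 (hιK ⟨i, rfl⟩)
    obtain ⟨K', iK', κ', hκ', sK', hlt⟩ := all_STEP3 I E D K A ι π κ θ hext hκ hθ hθι N ht sD sK
    exact hmax K' κ' hκ' sK' hlt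

/-- **Nuclear dimension of extensions.** Let `0 → I → E → D → 0` be an extension of C*-algebras.
(1) If `0 → L → D → Q → 0` is an extension and all nonzero quotients of `L` are
`max (dim I, dim L)`-tame, then `dim E ≤ max (dim I, dim L) + dim Q`. (2) `dim E ≤ dim I + dim D`.
(3) If all nonzero quotients of `D` are `max (dim I, dim D)`-tame, then `dim E ≤ max (dim I, dim D)`;
(4) in particular this holds if every nonzero quotient of `D` has a nonzero abelian element (`D` is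
of type I), and (5) it holds if `dim I = 0` or `dim D = 0`. (6) If `dim I ≤ N`, `dim D ≤ N` and
`dim E > N`, then `E` has a closed ideal `K ⊇ I`, `K ≠ E`, with `dim K ≤ N`, essential, maximal
among the closed ideals of nuclear dimension at most `N`, such that `E / K` is not `N`-tame. -/
theorem result {I E D : Type} [NonUnitalCStarAlgebra I] [NonUnitalCStarAlgebra E]
    [NonUnitalCStarAlgebra D] (ι : I →⋆ₙₐ[ℂ] E) (π : E →⋆ₙₐ[ℂ] D) (h : IsExt ι π) :
    (∀ (L Q : Type) [NonUnitalCStarAlgebra L] [NonUnitalCStarAlgebra Q] (j : L →⋆ₙₐ[ℂ] D)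
        (σ : D →⋆ₙₐ[ℂ] Q), IsExt j σ →
      (∀ (A : Type) [NonUnitalCStarAlgebra A] (θ : L →⋆ₙₐ[ℂ] A), Function.Surjective θ →
        Nontrivial A → TameN (max (nucDim I) (nucDim L)) A) →
      nucDim E ≤ max (nucDim I) (nucDim L) + nucDim Q) ∧
    nucDim E ≤ nucDim I + nucDim D ∧
    ((∀ (A : Type) [NonUnitalCStarAlgebra A] (θ : D →⋆ₙₐ[ℂ] A), Function.Surjective θ →
        Nontrivial A → TameN (max (nucDim I) (nucDim D)) A) →
      nucDim E ≤ max (nucDim I) (nucDim D)) ∧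
    ((∀ (A : Type) [NonUnitalCStarAlgebra A] (θ : D →⋆ₙₐ[ℂ] A), Function.Surjective θ →
        Nontrivial A → ∃ a : A, a ≠ 0 ∧ Pos a ∧
          ∀ x y : A, (a * x * a) * (a * y * a) = (a * y * a) * (a * x * a)) →
      nucDim E ≤ max (nucDim I) (nucDim D)) ∧
    (nucDim I = 0 ∨ nucDim D = 0 → nucDim E ≤ max (nucDim I) (nucDim D)) ∧
    ∀ N : ℕ∞, nucDim I ≤ N → nucDim D ≤ N → N < nucDim E →
      ∃ (K : Type) (_ : NonUnitalCStarAlgebra K) (κ : K →⋆ₙₐ[ℂ] E), IsIdeal κ ∧
        Set.range ι ⊆ Set.range κ ∧ Set.range κ ≠ Set.univ ∧ nucDim K ≤ N ∧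
        (∀ e : E, (∀ k, e * κ k = 0) → e = 0) ∧
        (∀ (L : Type) [NonUnitalCStarAlgebra L] (lam : L →⋆ₙₐ[ℂ] E), IsIdeal lam →
          Set.range κ ⊂ Set.range lam → N < nucDim L) ∧
        ∀ (A : Type) [NonUnitalCStarAlgebra A] (θ : E →⋆ₙₐ[ℂ] A), IsExt κ θ → ¬ TameN N A := by
  refine ⟨?_, sum_bound ι π h, max_bound ι π h, ?_, ?_, fun N hI hD hE =>
    maximal_ideal ι π h N hI hD hE⟩
  · intro L Q _ _ j σ hj ht
    have hji := J_MAIN3.isIdeal_of_isExt hj
    obtain ⟨K, iK, κ, ρ, lam, hκ, hlam, hκl, hjρ, hr⟩ := J_HG.t_PRE I E D L ι π j h hji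
    have h1 : nucDim K ≤ max (nucDim I) (nucDim L) := max_bound lam ρ hlam ht
    have h2 : IsExt κ (σ.comp π) := by
      refine ⟨hκ.inj, hj.surj.comp h.surj, fun e => ?_⟩
      show σ (π e) = 0 ↔ _
      rw [hj.exact, ← hr]
    exact (sum_bound κ (σ.comp π) h2).trans (add_le_add_left h1 _)
  · intro ht
    exact max_bound ι π h fun A _ θ hθ hA => Or.inl (ht A θ hθ hA)
  · rintro (h0 | h0)
    · refine (sum_bound ι π h).trans ?_
      rw [h0, zero_add]
      exact le_max_right _ _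
    · refine (sum_bound ι π h).trans ?_
      rw [h0, add_zero]
      exact le_max_left _ _

end Pool.Agent.Results.MP_30b5b4_an.SumAndMaximum
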